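import Pool.Agent.Q271.ZC.Stm

set_option autoImplicit false

/-! Project ZC (helper271), job HT: the local condition of Honda and Tate in a Galois extension. -/

namespace Pool.Agent.Q178.ZC

open NumberField Module Pool.Agent.Q271.ZC IntermediateField
open scoped Pointwise

section

variable {L : Type} [Field L] [NumberField L]

theorem mem_fix (β : 𝓞 L) (σ : L ≃ₐ[ℚ] L) :
    σ • β = β ↔ σ ∈ fixingSubgroup (L ≃ₐ[ℚ] L) ((ℚ⟮(β : L)⟯ : IntermediateField ℚ L) : Set L) := by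
  rw [mem_fixingSubgroup_iff]
  constructor
  · intro h y hy
    have h0 : σ (β : L) = β := congrArg (fun x : 𝓞 L => (x : L)) h
    show σ y = y
    induction hy using IntermediateField.adjoin_induction with
    | mem x hx =>
      rw [Set.mem_singleton_iff] at hx
      rw [hx, h0]
    | algebraMap x => exact σ.commutes x
    | add x y _ _ hx hy => rw [map_add, hx, hy]
    | inv x _ hx => rw [map_inv₀, hx]
    | mul x y _ _ hx hy => rw [map_mul, hx, hy]
  · intro h
    apply RingOfIntegers.ext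
    exact h _ (IntermediateField.mem_adjoin_simple_self ℚ (β : L))

/-- orbit of `β` under the decomposition group -/
theorem card_orbit (v : Ideal (𝓞 L)) (β : 𝓞 L) :
    Nat.card {γ : 𝓞 L // ∃ σ : L ≃ₐ[ℚ] L, σ • v = v ∧ σ • β = γ} *
      Nat.card (MulAction.stabilizer
        (fixingSubgroup (L ≃ₐ[ℚ] L) ((ℚ⟮(β : L)⟯ : IntermediateField ℚ L) : Set L)) v) =
      Nat.card (MulAction.stabilizer (L ≃ₐ[ℚ] L) v) := by
  set D := MulAction.stabilizer (L ≃ₐ[ℚ] L) v with hD
  have e1 : Nat.card {γ : 𝓞 L // ∃ σ : L ≃ₐ[ℚ] L, σ • v = v ∧ σ • β = γ} =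
      Nat.card (MulAction.orbit D β) := by
    apply Nat.card_congr
    refine Equiv.subtypeEquivRight fun γ => ?_
    constructor
    · rintro ⟨σ, h1, h2⟩
      exact ⟨⟨σ, h1⟩, h2⟩
    · rintro ⟨⟨σ, h1⟩, h2⟩
      exact ⟨σ, h1, h2⟩
  have e2 : Nat.card (MulAction.stabilizer
        (fixingSubgroup (L ≃ₐ[ℚ] L) ((ℚ⟮(β : L)⟯ : IntermediateField ℚ L) : Set L)) v) =
      Nat.card (MulAction.stabilizer D β) := by
    apply Nat.card_congr
    refine ⟨fun σ => ⟨⟨σ.1.1, σ.2⟩, (mem_fix β σ.1.1).2 σ.1.2⟩,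
      fun σ => ⟨⟨σ.1.1, (mem_fix β σ.1.1).1 σ.2⟩, σ.1.2⟩, fun σ => rfl, fun σ => rfl⟩
  rw [e1, e2, ← Nat.card_prod]
  exact Nat.card_congr (MulAction.orbitProdStabilizerEquivGroup D β)

end

theorem ht : S_HT := by
  intro L _ _ _ p v hp hv hpv β hβ a m hyp
  set F : IntermediateField ℚ L := ℚ⟮(β : L)⟯ with hF
  have hint : IsIntegral ℤ (β : L) := β.isIntegral_coe
  set g : F := IntermediateField.AdjoinSimple.gen ℚ (β : L) with hgdef
  have hgc : algebraMap F L g = (β : L) := IntermediateField.AdjoinSimple.algebraMap_gen ℚ (β : L)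
  have hg : IsIntegral ℤ g := by
    rw [← isIntegral_algebraMap_iff (FaithfulSMul.algebraMap_injective F L), hgc]
    exact hint
  set y : 𝓞 F := ⟨g, hg⟩ with hy
  have hyβ : algebraMap (𝓞 F) (𝓞 L) y = β := by
    apply RingOfIntegers.ext
    exact hgc
  have hyne : y ≠ 0 := by
    intro h
    rw [h, map_zero] at hyβ
    exact hβ hyβ.symm
  -- the primes
  set P0 : Ideal ℤ := Ideal.span {(p : ℤ)} with hP0
  have hP0ne : P0 ≠ ⊥ := by
    rw [hP0, Ne, Ideal.span_singleton_eq_bot]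
    exact_mod_cast hp.ne_zero
  have hP0p : P0.IsPrime := by
    rw [hP0, Ideal.span_singleton_prime (by exact_mod_cast hp.ne_zero)]
    exact Nat.prime_iff_prime_int.1 hp
  have hP0m : P0.IsMaximal := hP0p.isMaximal hP0ne
  have hvP : v.LiesOver P0 := by
    constructor
    apply hP0m.eq_of_le (Ideal.IsPrime.under ℤ v).ne_top
    rw [hP0, Ideal.span_le, Set.singleton_subset_iff]
    show algebraMap ℤ (𝓞 L) (p : ℤ) ∈ v
    simpa using hpv
  set w : Ideal (𝓞 F) := v.under (𝓞 F) with hw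
  have hwp : w.IsPrime := Ideal.IsPrime.under (𝓞 F) v
  have hvw : v.LiesOver w := ⟨rfl⟩
  have hwP : w.LiesOver P0 := Ideal.LiesOver.tower_bot v w P0
  have hvne : v ≠ ⊥ := by
    intro h
    rw [h] at hpv
    have : (p : 𝓞 L) = 0 := by simpa using hpv
    exact hp.ne_zero (by exact_mod_cast this)
  have hwne : w ≠ ⊥ := Ideal.ne_bot_of_liesOver_of_ne_bot hP0ne w
  have hvm : v.IsMaximal := hv.isMaximal hvne
  have hwm : w.IsMaximal := hwp.isMaximal hwne
  -- the hypothesis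
  have hnorm := Ideal.absNorm_eq_pow_inertiaDeg' w hp
  have hfpos : 0 < P0.inertiaDeg' w := Ideal.inertiaDeg'_pos P0 w
  have htop : Algebra.adjoin ℚ {(y : F)} = ⊤ := by
    have h1 := (IntermediateField.adjoin.powerBasis (K := ℚ) (x := (β : L))
      (Algebra.IsIntegral.isIntegral _)).adjoin_gen_eq_top
    exact h1
  have h0 := hyp F y (algebraMap F L) hgc htop w (P0.inertiaDeg' w) hwp hfpos hnorm
  -- decomposition groups
  have hGal : IsGaloisGroup (_root_.fixingSubgroup (L ≃ₐ[ℚ] L) (F : Set L)) (𝓞 F) (𝓞 L) :=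
    IsGaloisGroup.of_isFractionRing _ (𝓞 F) (𝓞 L) F L
  have c1 := Ideal.card_stabilizer_eq (G := L ≃ₐ[ℚ] L) P0 v
  have c2 := Ideal.card_stabilizer_eq (G := fixingSubgroup (L ≃ₐ[ℚ] L) (F : Set L)) w v
  rw [Ideal.ramificationIdxIn_eq_ramificationIdx P0 v (L ≃ₐ[ℚ] L),
    Ideal.inertiaDegIn_eq_inertiaDeg P0 v (L ≃ₐ[ℚ] L), Ideal.ramificationIdx_tower w v,
    Ideal.inertiaDeg_tower w v] at c1
  rw [Ideal.ramificationIdxIn_eq_ramificationIdx w v (fixingSubgroup (L ≃ₐ[ℚ] L) (F : Set L)),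
    Ideal.inertiaDegIn_eq_inertiaDeg w v (fixingSubgroup (L ≃ₐ[ℚ] L) (F : Set L))] at c2
  have c3 := card_orbit v β
  rw [← hF, c1] at c3
  have c3' : Nat.card {γ : 𝓞 L // ∃ σ : L ≃ₐ[ℚ] L, σ • v = v ∧ σ • β = γ} *
      (v.ramificationIdx (𝓞 F) * v.inertiaDeg (𝓞 F)) =
      w.ramificationIdx ℤ * v.ramificationIdx (𝓞 F) * (w.inertiaDeg ℤ * v.inertiaDeg (𝓞 F)) := by
    rw [← c2]
    exact c3
  -- ramification indices and valuations
  have r1 : multiplicity v (Ideal.span {(p : 𝓞 L)}) = v.ramificationIdx ℤ := by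
    rw [← Ideal.ramificationIdx'_eq_ramificationIdx P0 v hP0ne,
      Ideal.IsDedekindDomain.ramificationIdx'_eq_multiplicity (Ideal.map_ne_bot_of_ne_bot hP0ne) hv]
    congr 1
    rw [hP0, Ideal.map_span, Set.image_singleton]
    simp
  have hspan : Ideal.span {β} = (Ideal.span {y}).map (algebraMap (𝓞 F) (𝓞 L)) := by
    rw [Ideal.map_span, Set.image_singleton, hyβ]
  have hvi : Irreducible v := (Ideal.prime_of_isPrime hvne hv).irreducible
  have hwi : Irreducible w := (Ideal.prime_of_isPrime hwne hwp).irreducible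
  have hyb : Ideal.span {y} ≠ ⊥ := by
    rw [Ne, Ideal.span_singleton_eq_bot]
    exact hyne
  have r2 : multiplicity v (Ideal.span {β}) = v.ramificationIdx (𝓞 F) * multiplicity w (Ideal.span {y}) := by
    have h1 := Ideal.IsDedekindDomain.emultiplicity_map_eq_ramificationIdx'_mul hyb hwi hvi hvne
    rw [← hspan, Ideal.ramificationIdx'_eq_ramificationIdx w v hwne] at h1
    have f1 : FiniteMultiplicity w (Ideal.span {y}) := FiniteMultiplicity.of_prime_left hwi.prime hyb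
    have f2 : FiniteMultiplicity v (Ideal.span {β}) := FiniteMultiplicity.of_prime_left hvi.prime (by
      rw [Ne, Ideal.zero_eq_bot, Ideal.span_singleton_eq_bot]
      exact hβ)
    rw [f1.emultiplicity_eq_multiplicity, f2.emultiplicity_eq_multiplicity] at h1
    exact_mod_cast h1
  have r3 : P0.inertiaDeg' w = w.inertiaDeg ℤ := Ideal.inertiaDeg'_eq_inertiaDeg P0 w
  have r4 : v.ramificationIdx ℤ = w.ramificationIdx ℤ * v.ramificationIdx (𝓞 F) := Ideal.ramificationIdx_tower w v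
  have pos1 : 0 < v.ramificationIdx (𝓞 F) := v.ramificationIdx_pos (𝓞 F)
  have pos2 : 0 < v.inertiaDeg (𝓞 F) := v.inertiaDeg_pos (𝓞 F)
  have c4 : Nat.card {γ : 𝓞 L // ∃ σ : L ≃ₐ[ℚ] L, σ • v = v ∧ σ • β = γ} = w.ramificationIdx ℤ * w.inertiaDeg ℤ := by
    apply Nat.eq_of_mul_eq_mul_right (Nat.mul_pos pos1 pos2)
    rw [c3']
    ring
  rw [r1, r2, r4, c4]
  rw [r3] at h0
  obtain ⟨z, hz⟩ := h0
  refine ⟨z, ?_⟩
  calc w.ramificationIdx ℤ * w.inertiaDeg ℤ * m * (v.ramificationIdx (𝓞 F) * multiplicity w (Ideal.span {y}))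
      = w.ramificationIdx ℤ * v.ramificationIdx (𝓞 F) * (m * w.inertiaDeg ℤ * multiplicity w (Ideal.span {y})) := by
        ring
    _ = w.ramificationIdx ℤ * v.ramificationIdx (𝓞 F) * a * z := by rw [hz]; ring

end Pool.Agent.Q178.ZC
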