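import Pool.Agent.Q271.ZC.Stm

set_option autoImplicit false

/-! Project ZC (helper271), job WE: Weil numbers of a given CM type. -/

namespace Pool.Agent.Q178.ZC

open NumberField Module Pool.Agent.Q271.ZC
open scoped Pointwise nonZeroDivisors

theorem root_pow {L : Type} [Field L] [NumberField L] (ζ : L) (M : ℕ) (hM : 0 < M) (h : ζ ^ M = 1) :
    ζ ^ Units.torsionOrder L = 1 := by
  have h1 : orderOf ζ ∣ M := orderOf_dvd_of_pow_eq_one h
  have h2 : 0 < orderOf ζ := Nat.pos_of_dvd_of_pos h1 hM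
  have : NeZero (orderOf ζ) := ⟨h2.ne'⟩
  have h3 := NumberField.Units.dvd_torsionOrder_of_isPrimitiveRoot (IsPrimitiveRoot.orderOf ζ)
  exact orderOf_dvd_iff_pow_eq_one.1 h3

theorem coe_smul {L : Type} [Field L] [NumberField L] (σ : L ≃ₐ[ℚ] L) (x : 𝓞 L) :
    ((σ • x : 𝓞 L) : L) = σ (x : L) := rfl

theorem princ {L : Type} [Field L] [NumberField L] (I : Ideal (𝓞 L)) (hI : I ≠ ⊥) :
    ∃ (h : ℕ) (α : 𝓞 L), 0 < h ∧ I ^ h = Ideal.span {α} := by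
  classical
  have hI' : I ∈ (Ideal (𝓞 L))⁰ := mem_nonZeroDivisors_of_ne_zero hI
  set g : ClassGroup (𝓞 L) := ClassGroup.mk0 ⟨I, hI'⟩ with hg
  have h1 : g ^ Fintype.card (ClassGroup (𝓞 L)) = 1 := pow_card_eq_one
  have h2 : ClassGroup.mk0 ⟨I ^ Fintype.card (ClassGroup (𝓞 L)), pow_mem hI' _⟩ = 1 := by
    rw [← h1, hg, ← map_pow]
    rfl
  rw [ClassGroup.mk0_eq_one_iff] at h2
  obtain ⟨α, hα⟩ := h2.principal
  exact ⟨_, α, Fintype.card_pos, hα⟩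

theorem we : S_weil := by
  intro L _ _ _ c hc p v hp hv hprod S hS
  classical
  set I : Ideal (𝓞 L) := ∏ σ ∈ S, σ • v with hI
  have hpne : (p : 𝓞 L) ≠ 0 := by exact_mod_cast hp.ne_zero
  have hcI : c • I = ∏ σ ∈ Sᶜ, σ • v := by
    rw [hI, Finset.smul_prod']
    apply Finset.prod_equiv (Equiv.mulLeft c)
    · intro σ
      rw [Finset.mem_compl]
      exact hS σ
    · intro σ _
      show c • σ • v = (c * σ) • v
      rw [mul_smul]
  have hII : I * c • I = Ideal.span {(p : 𝓞 L)} := by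
    rw [hcI, hI, Finset.prod_mul_prod_compl, hprod]
  have hI0 : I ≠ ⊥ := by
    intro h
    rw [h, Ideal.bot_mul] at hII
    exact hpne (Ideal.span_singleton_eq_bot.1 hII.symm)
  obtain ⟨h, α₀, hh, hα₀⟩ := princ I hI0
  have h1 : Ideal.span {α₀ * c • α₀} = Ideal.span {(p : 𝓞 L) ^ h} := by
    have e1 : Ideal.span {c • α₀} = c • Ideal.span {α₀} := by
      rw [Ideal.pointwise_smul_def, Ideal.map_span, Set.image_singleton]
      rfl
    rw [← Ideal.span_singleton_mul_span_singleton, e1, ← hα₀, smul_pow', ← mul_pow, hII,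
      Ideal.span_singleton_pow]
  rw [Ideal.span_singleton_eq_span_singleton] at h1
  obtain ⟨u, hu⟩ := h1.symm
  -- hu : p ^ h * u = α₀ * c • α₀
  set w := Units.torsionOrder L with hw
  have hw0 : 0 < w := Nat.pos_of_ne_zero (Units.torsionOrder_ne_zero L)
  set α₁ : 𝓞 L := α₀ ^ 2 * ((u⁻¹ : (𝓞 L)ˣ) : 𝓞 L) with hα₁
  refine ⟨2 * h * w, α₁ ^ w, by positivity, ?_, ?_, ?_⟩
  · have e1 : Ideal.span {α₁} = Ideal.span {α₀} ^ 2 := by
      rw [hα₁, Ideal.span_singleton_mul_right_unit (Units.isUnit _), Ideal.span_singleton_pow]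
    rw [← Ideal.span_singleton_pow, e1, ← hα₀, Finset.prod_pow, ← hI, ← pow_mul, ← pow_mul]
    congr 1
    ring
  · intro φ
    have n1 : ‖φ (α₀ : L)‖ ^ 2 = (p : ℝ) ^ h * ‖φ ((u : 𝓞 L) : L)‖ := by
      have e1 := congrArg (fun x : 𝓞 L => ‖φ (x : L)‖) hu
      simp only [map_mul, map_pow, map_natCast, norm_mul, norm_pow, RCLike.norm_natCast] at e1
      have e2 : ‖φ ((c • α₀ : 𝓞 L) : L)‖ = ‖φ (α₀ : L)‖ := by
        rw [coe_smul, (hc φ).eq, norm_star]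
      rw [e2] at e1
      rw [pow_two]
      exact e1.symm
    have n2 : ‖φ ((u : 𝓞 L) : L)‖ * ‖φ (((u⁻¹ : (𝓞 L)ˣ) : 𝓞 L) : L)‖ = 1 := by
      rw [← norm_mul, ← map_mul, ← map_mul, Units.mul_inv, map_one, map_one, norm_one]
    have n3 : ‖φ (α₁ : L)‖ ^ 2 = (p : ℝ) ^ (2 * h) := by
      rw [hα₁]
      simp only [map_mul, map_pow, norm_mul, norm_pow]
      calc (‖φ (α₀ : L)‖ ^ 2 * ‖φ (((u⁻¹ : (𝓞 L)ˣ) : 𝓞 L) : L)‖) ^ 2
          = ((p : ℝ) ^ h * (‖φ ((u : 𝓞 L) : L)‖ * ‖φ (((u⁻¹ : (𝓞 L)ˣ) : 𝓞 L) : L)‖)) ^ 2 := by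
            rw [n1]; ring
        _ = (p : ℝ) ^ (2 * h) := by rw [n2]; ring
    have e3 : φ ((α₁ ^ w : 𝓞 L) : L) = φ (α₁ : L) ^ w := by
      rw [RingOfIntegers.coe_eq_algebraMap, RingOfIntegers.coe_eq_algebraMap, map_pow, map_pow]
    rw [e3, norm_pow, ← pow_mul, mul_comm w 2, pow_mul, n3, ← pow_mul]
  · intro n N hN hone
    have e1 : ∏ σ : L ≃ₐ[ℚ] L, (σ ((α₁ ^ w : 𝓞 L) : L)) ^ n σ = (∏ σ : L ≃ₐ[ℚ] L, (σ (α₁ : L)) ^ n σ) ^ w := by
      rw [← Finset.prod_pow]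
      apply Finset.prod_congr rfl
      intro σ _
      have e2 : σ ((α₁ ^ w : 𝓞 L) : L) = σ (α₁ : L) ^ w := by
        rw [RingOfIntegers.coe_eq_algebraMap, RingOfIntegers.coe_eq_algebraMap, map_pow, map_pow]
      rw [e2, ← zpow_natCast, ← zpow_mul, ← zpow_natCast, ← zpow_mul, mul_comm]
    rw [e1] at hone ⊢
    rw [← pow_mul] at hone
    exact root_pow _ (w * N) (by positivity) hone

end Pool.Agent.Q178.ZC
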